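import Pool.Agent.helper11.OFP.Spec

/-!
Row HCX of project ofp (MP_90e158_lc): intersections of convex subgroups are convex.
-/

set_option autoImplicit false

open MeasureTheory

namespace Pool.Agent.OFP

open Pool.Agent.LOF

theorem HCX : HCX_stmt := by
  intro r h
  refine ⟨?_, ?_, ?_⟩
  · intro a ha b hb k h1 h2
    unfold Hc at ha hb ⊢
    rw [Subgroup.mem_sInf] at ha hb ⊢
    intro C hC
    exact hC.1 a (ha C hC) b (hb C hC) k h1 h2
  · unfold Hc
    rw [Subgroup.mem_sInf]
    intro C hC
    exact hC.2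
  · intro C hC hh
    unfold Hc
    exact sInf_le ⟨hC, hh⟩

end Pool.Agent.OFP
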